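import Pool.Agent.V11134.RB.Main

/-!
# MP_1c393c_co: infinitely many connected graphs with a non-monotone witness
-/

set_option autoImplicit false

namespace Pool.Agent.Results.MP_1c393c_co.InfiniteFamily

open Pool.Agent.V11134.RB

/-- `G` is a non-monotone witness for `H`: every proper edge colouring of `G` that uses exactly `χ'(G)`
colours contains a rainbow copy of `H`, and some proper edge colouring of `G` contains no rainbow copy
of `H`. -/
def NonMonotoneWitness {V W : Type} (H : SimpleGraph V) (G : SimpleGraph W) : Prop :=
  (∀ c : Sym2 W → ℕ, IsProper G c → numColours G c = chromaticIndex G → HasRainbow H G c) ∧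
    ∃ c : Sym2 W → ℕ, IsProper G c ∧ ¬ HasRainbow H G c

/-- There is a sequence of pairwise non-isomorphic finite connected graphs, each of which has a finite
non-monotone witness. -/
theorem result : ∃ (V : ℕ → Type) (_ : ∀ n, Fintype (V n)) (H : ∀ n, SimpleGraph (V n)),
    (∀ n, (H n).Connected) ∧ (∀ m n, m ≠ n → ¬ Nonempty (H m ≃g H n)) ∧
    ∀ n, ∃ (W : Type) (_ : Fintype W) (G : SimpleGraph W), NonMonotoneWitness (H n) G := by
  refine ⟨fun n => GV (10 * (4 * (0 + 1))) (n + 1 + 1), fun n => inferInstance,
    fun n => guest (10 * (4 * (0 + 1))) (n + 1 + 1), fun n => guest_connected _ _, ?_, ?_⟩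
  · rintro m n hmn ⟨φ⟩
    apply hmn
    have h := Fintype.card_congr φ.toEquiv
    -- the number of vertices
    have hcard : ∀ q, Fintype.card (GV 40 q) = 43 + 40 * q := by
      intro q
      have e : GV 40 q ≃ (Fin 3 ⊕ Fin 40) ⊕ (Fin 40 × Fin q) :=
        { toFun := fun v => match v with
            | .root => Sum.inl (Sum.inl 0)
            | .al => Sum.inl (Sum.inl 1)
            | .be => Sum.inl (Sum.inl 2)
            | .child i => Sum.inl (Sum.inr i)
            | .leaf i l => Sum.inr (i, l)
          invFun := fun v => match v with
            | Sum.inl (Sum.inl 0) => .root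
            | Sum.inl (Sum.inl 1) => .al
            | Sum.inl (Sum.inl 2) => .be
            | Sum.inl (Sum.inr i) => .child i
            | Sum.inr (i, l) => .leaf i l
          left_inv := by
            rintro (_ | _ | _ | _ | _) <;> rfl
          right_inv := by
            rintro ((i | _) | ⟨_, _⟩)
            · fin_cases i <;> rfl
            · rfl
            · rfl }
      rw [Fintype.card_congr e]
      simp
    have hm := hcard (m + 1 + 1)
    have hn := hcard (n + 1 + 1)
    simp only [Nat.zero_add, Nat.mul_one] at h
    rw [hm, hn] at h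
    omega
  · intro n
    obtain ⟨W, hW, G, h1, h2⟩ := core 0 (n + 1) (by omega)
    exact ⟨W, hW, G, fun c hc hnum => h1 c hc (by omega), h2⟩

end Pool.Agent.Results.MP_1c393c_co.InfiniteFamily
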